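/-
Module R1 of the project on the two series for 1/pi (MP_e49510_nt): the first recurrence for the
coefficients of the polynomials S_n^(2), by a telescoping certificate.
-/
import Pool.Agent.H22.Pi.Defs

set_option autoImplicit false

namespace Pool.Agent.H90.Pi

open Pool.Agent.H22.Pi

lemma ch1 (n i : ℕ) :
    ((n : ℤ) + 1 - i) * ((n + 1).choose i : ℤ) = ((n : ℤ) + 1) * (n.choose i : ℤ) := by
  rcases le_or_gt i (n + 1) with h | h
  · have h1 := Nat.choose_mul_succ_eq n i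
    have h2 : ((n.choose i * (n + 1) : ℕ) : ℤ) = (((n + 1).choose i * (n + 1 - i) : ℕ) : ℤ) := by
      rw [h1]
    rw [Nat.cast_mul, Nat.cast_mul, Nat.cast_sub h] at h2
    push_cast at h2
    linarith
  · rw [Nat.choose_eq_zero_of_lt h, Nat.choose_eq_zero_of_lt (by omega)]
    simp

lemma ch2 (n i : ℕ) :
    ((i : ℤ) + 1) * ((n + 1).choose (i + 1) : ℤ) = ((n : ℤ) + 1) * (n.choose i : ℤ) := by
  have h1 := Nat.add_one_mul_choose_eq n i
  have h2 : (((n + 1) * n.choose i : ℕ) : ℤ)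
      = (((n + 1).choose (i + 1) * (i + 1) : ℕ) : ℤ) := by
    rw [h1]
  push_cast at h2
  linarith

/-- The summand. -/
def TT (N m i : ℕ) : ℤ := (N.choose i : ℤ) ^ 2 * (N.choose (m - i) : ℤ) ^ 2 * (m.choose i : ℤ)

lemma cc_eq (N m : ℕ) : (cc N m : ℤ) = ∑ i ∈ Finset.range (m + 1), TT N m i := by
  unfold cc TT
  push_cast
  rfl

lemma s0 (n m i : ℕ) (hi : i ≤ m) :
    ((n : ℤ) + 1) ^ 4 * TT n m i
      = ((n : ℤ) + 1 - i) ^ 2 * ((n : ℤ) + 1 - (m - i)) ^ 2 * TT (n + 1) m i := by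
  unfold TT
  have h1 := ch1 n i
  have h2 := ch1 n (m - i)
  rw [Nat.cast_sub hi] at h2
  have e : ((n : ℤ) + 1 - i) ^ 2 * ((n : ℤ) + 1 - (m - i)) ^ 2
      * (((n + 1).choose i : ℤ) ^ 2 * ((n + 1).choose (m - i) : ℤ) ^ 2 * (m.choose i : ℤ))
      = (((n : ℤ) + 1 - i) * ((n + 1).choose i : ℤ)) ^ 2
        * (((n : ℤ) + 1 - (m - i)) * ((n + 1).choose (m - i) : ℤ)) ^ 2 * (m.choose i : ℤ) := by
    ring
  rw [e, h1, h2]
  ring

/-- shifted by one in the first index -/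
lemma s1 (n m i : ℕ) (hi : i ≤ m) :
    ((m : ℤ) + 1) * ((n : ℤ) + 1) ^ 4 * TT n m i
      = ((i : ℤ) + 1) ^ 3 * ((n : ℤ) + 1 - (m - i)) ^ 2 * TT (n + 1) (m + 1) (i + 1) := by
  unfold TT
  have h1 := ch2 n i
  have h2 := ch1 n (m - i)
  have h3 := ch2 m i
  rw [Nat.cast_sub hi] at h2
  have e0 : m + 1 - (i + 1) = m - i := by omega
  rw [e0]
  have e : ((i : ℤ) + 1) ^ 3 * ((n : ℤ) + 1 - (m - i)) ^ 2
      * (((n + 1).choose (i + 1) : ℤ) ^ 2 * ((n + 1).choose (m - i) : ℤ) ^ 2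
        * ((m + 1).choose (i + 1) : ℤ))
      = (((i : ℤ) + 1) * ((n + 1).choose (i + 1) : ℤ)) ^ 2
        * (((n : ℤ) + 1 - (m - i)) * ((n + 1).choose (m - i) : ℤ)) ^ 2
        * (((i : ℤ) + 1) * ((m + 1).choose (i + 1) : ℤ)) := by
    ring
  rw [e, h1, h2, h3]
  ring

/-- shifted by one in both indices -/
lemma s2 (n m i : ℕ) (hi : i ≤ m) :
    ((m : ℤ) + 2) * ((m : ℤ) + 1) * ((n : ℤ) + 1) ^ 4 * TT n m i
      = ((i : ℤ) + 1) ^ 3 * ((m : ℤ) - i + 1) ^ 3 * TT (n + 1) (m + 2) (i + 1) := by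
  unfold TT
  have h1 := ch2 n i
  have h2 := ch2 n (m - i)
  have h3 := ch2 (m + 1) i
  have h4 := ch1 m i
  rw [Nat.cast_sub hi] at h2
  have e0 : m + 2 - (i + 1) = m - i + 1 := by omega
  rw [e0]
  have e : ((i : ℤ) + 1) ^ 3 * ((m : ℤ) - i + 1) ^ 3
      * (((n + 1).choose (i + 1) : ℤ) ^ 2 * ((n + 1).choose (m - i + 1) : ℤ) ^ 2
        * ((m + 2).choose (i + 1) : ℤ))
      = (((i : ℤ) + 1) * ((n + 1).choose (i + 1) : ℤ)) ^ 2
        * (((m : ℤ) - i + 1) * ((n + 1).choose (m - i + 1) : ℤ)) ^ 2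
        * ((m : ℤ) + 1 - i) * (((i : ℤ) + 1) * ((m + 2).choose (i + 1) : ℤ)) := by
    ring
  rw [e, h1, h2]
  have h3' : ((i : ℤ) + 1) * ((m + 2).choose (i + 1) : ℤ)
      = ((m : ℤ) + 2) * ((m + 1).choose i : ℤ) := by
    have := h3
    push_cast at this
    linarith
  rw [h3']
  linear_combination (-(((n : ℤ) + 1) ^ 4 * (n.choose i : ℤ) ^ 2 * (n.choose (m - i) : ℤ) ^ 2
    * ((m : ℤ) + 2))) * h4

lemma shiftT (N m i : ℕ) (hi : i < m) :
    ((i : ℤ) + 1) ^ 3 * ((N : ℤ) - (m - i) + 1) ^ 2 * TT N m (i + 1)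
      = ((N : ℤ) - i) ^ 2 * ((m : ℤ) - i) ^ 3 * TT N m i := by
  obtain ⟨j, rfl⟩ : ∃ j, m = i + 1 + j := ⟨m - (i + 1), by omega⟩
  unfold TT
  have e0 : i + 1 + j - (i + 1) = j := by omega
  have e1 : i + 1 + j - i = j + 1 := by omega
  rw [e0, e1]
  -- C(N,i+1)(i+1) = C(N,i)(N-i)
  have a1 : ((i : ℤ) + 1) * (N.choose (i + 1) : ℤ) = ((N : ℤ) - i) * (N.choose i : ℤ) := by
    rcases le_or_gt i N with h | h
    · have h1 := Nat.choose_succ_right_eq N i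
      have h2 : ((N.choose (i + 1) * (i + 1) : ℕ) : ℤ) = ((N.choose i * (N - i) : ℕ) : ℤ) := by
        rw [h1]
      rw [Nat.cast_mul, Nat.cast_mul, Nat.cast_sub h] at h2
      push_cast at h2
      linarith
    · rw [Nat.choose_eq_zero_of_lt h, Nat.choose_eq_zero_of_lt (by omega)]
      simp
  have a2 : ((j : ℤ) + 1) * (N.choose (j + 1) : ℤ) = ((N : ℤ) - j) * (N.choose j : ℤ) := by
    rcases le_or_gt j N with h | h
    · have h1 := Nat.choose_succ_right_eq N j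
      have h2 : ((N.choose (j + 1) * (j + 1) : ℕ) : ℤ) = ((N.choose j * (N - j) : ℕ) : ℤ) := by
        rw [h1]
      rw [Nat.cast_mul, Nat.cast_mul, Nat.cast_sub h] at h2
      push_cast at h2
      linarith
    · rw [Nat.choose_eq_zero_of_lt h, Nat.choose_eq_zero_of_lt (by omega)]
      simp
  have a3 : ((i : ℤ) + 1) * ((i + 1 + j).choose (i + 1) : ℤ)
      = ((j : ℤ) + 1) * ((i + 1 + j).choose i : ℤ) := by
    have h1 := Nat.choose_succ_right_eq (i + 1 + j) i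
    rw [e1] at h1
    have h2 : (((i + 1 + j).choose (i + 1) * (i + 1) : ℕ) : ℤ)
        = (((i + 1 + j).choose i * (j + 1) : ℕ) : ℤ) := by
      rw [h1]
    push_cast at h2
    linarith
  push_cast
  have e : ((i : ℤ) + 1) ^ 3 * ((N : ℤ) - ((i : ℤ) + 1 + j - i) + 1) ^ 2
      * ((N.choose (i + 1) : ℤ) ^ 2 * (N.choose j : ℤ) ^ 2 * ((i + 1 + j).choose (i + 1) : ℤ))
      = (((i : ℤ) + 1) * (N.choose (i + 1) : ℤ)) ^ 2 * (((N : ℤ) - j) * (N.choose j : ℤ)) ^ 2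
        * (((i : ℤ) + 1) * ((i + 1 + j).choose (i + 1) : ℤ)) := by
    ring
  rw [e, a1, ← a2, a3]
  ring

/-- the polynomial of the certificate -/
def Q1 (n m i : ℤ) : ℤ :=
  (-4 + 7 * m - 6 * m ^ 2 + 3 * m ^ 3 + 4 * n ^ 2 - 4 * n ^ 2 * m)
    + (8 - 11 * m + 3 * m ^ 2 + 8 * n - 8 * n * m) * i

lemma cert1 (n m i j : ℤ) (hj : j = m - i) :
    (n + 1) ^ 4 * (m * (m - 1)) * (-m ^ 2 + 6 * m * (n + 1) - 6 * (n + 1) ^ 2)
    + m * (m - 1) * (6 + 6 * m + 12 * n + 3 * m ^ 2 + 6 * m * n + 6 * n ^ 2)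
        * ((n + 1 - i) ^ 2 * (n + 1 - j) ^ 2)
    + (m - 1) * (2 - 7 * (m - 1) + 16 * n - 9 * (m - 1) ^ 2 + 8 * (m - 1) * n + 8 * n ^ 2)
        * (i ^ 3 * (n + 1 - j) ^ 2)
    + (-4 + 2 * (m - 2) - 16 * n + 6 * (m - 2) ^ 2 - 16 * (m - 2) * n) * (i ^ 3 * j ^ 3)
    = Q1 n m (i + 1) * ((n + 1 - i) ^ 2 * j ^ 3) - Q1 n m i * (i ^ 3 * (n + 1 - j) ^ 2) := by
  subst hj
  unfold Q1
  ring

theorem r1 : Rec1Stmt := by
  intro n m
  rcases m with _ | _ | k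
  · have e1 : cc (n + 1) 0 = 1 := by simp [cc]
    have e2 : cc n 0 = 1 := by simp [cc]
    rw [e1, e2]
    simp
    ring
  · have e1 : ∀ N : ℕ, (cc N (0 + 1) : ℤ) = 2 * (N : ℤ) ^ 2 := by
      intro N
      simp [cc, Finset.sum_range_succ]
      ring
    have e2 : cc n (0 + 1 - 1) = 1 := by simp [cc]
    rw [e1, e1, e2]
    simp
    ring
  · -- main case
    have hs1 : ((k : ℤ) + 2) * ((n : ℤ) + 1) ^ 4 * (cc n (k + 1) : ℤ)
        = ∑ i ∈ Finset.range (k + 3), (i : ℤ) ^ 3 * ((n : ℤ) + 1 - (((k : ℤ) + 2) - i)) ^ 2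
            * TT (n + 1) (k + 2) i := by
      rw [Finset.sum_range_succ', cc_eq, Finset.mul_sum]
      simp only [Nat.cast_zero, ne_eq, OfNat.ofNat_ne_zero, not_false_eq_true, zero_pow,
        zero_mul, add_zero]
      refine Finset.sum_congr rfl fun i hi => ?_
      have hi' : i ≤ k + 1 := by
        have := Finset.mem_range.1 hi
        omega
      have h := s1 n (k + 1) i hi'
      push_cast at h ⊢
      rw [show (k : ℤ) + 2 = k + 1 + 1 by ring, h]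
      ring
    have hs2 : ((k : ℤ) + 2) * ((k : ℤ) + 1) * ((n : ℤ) + 1) ^ 4 * (cc n k : ℤ)
        = ∑ i ∈ Finset.range (k + 3), (i : ℤ) ^ 3 * (((k : ℤ) + 2) - i) ^ 3
            * TT (n + 1) (k + 2) i := by
      rw [Finset.sum_range_succ, Finset.sum_range_succ', cc_eq, Finset.mul_sum]
      simp only [Nat.cast_zero, ne_eq, OfNat.ofNat_ne_zero, not_false_eq_true, zero_pow,
        zero_mul, add_zero]
      have hlast : (((k + 2 : ℕ) : ℤ)) ^ 3 * (((k : ℤ) + 2) - ((k + 2 : ℕ) : ℤ)) ^ 3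
            * TT (n + 1) (k + 2) (k + 2) = 0 := by
        push_cast
        ring
      rw [hlast, add_zero]
      refine Finset.sum_congr rfl fun i hi => ?_
      have hi' : i ≤ k := by
        have := Finset.mem_range.1 hi
        omega
      have h := s2 n k i hi'
      rw [h]
      push_cast
      ring
    have hs0 : ((n : ℤ) + 1) ^ 4 * (cc n (k + 2) : ℤ)
        = ∑ i ∈ Finset.range (k + 3), (((n : ℤ) + 1 - i) ^ 2
            * ((n : ℤ) + 1 - (((k : ℤ) + 2) - i)) ^ 2) * TT (n + 1) (k + 2) i := by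
      rw [cc_eq, Finset.mul_sum]
      refine Finset.sum_congr rfl fun i hi => ?_
      have hi' : i ≤ k + 2 := by
        have := Finset.mem_range.1 hi
        omega
      have h := s0 n (k + 2) i hi'
      rw [h]
      push_cast
      ring
    have hsN : (cc (n + 1) (k + 2) : ℤ) = ∑ i ∈ Finset.range (k + 3), TT (n + 1) (k + 2) i :=
      cc_eq (n + 1) (k + 2)
    -- the telescoping sum
    set g : ℕ → ℤ := fun i => Q1 n (k + 2) i * ((i : ℤ) ^ 3
      * ((n : ℤ) + 1 - (((k : ℤ) + 2) - i)) ^ 2) * TT (n + 1) (k + 2) i with hg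
    have htel : ∑ i ∈ Finset.range (k + 3),
        (Q1 n (k + 2) (i + 1) * (((n : ℤ) + 1 - i) ^ 2 * (((k : ℤ) + 2) - i) ^ 3)
          - Q1 n (k + 2) i * ((i : ℤ) ^ 3 * ((n : ℤ) + 1 - (((k : ℤ) + 2) - i)) ^ 2))
          * TT (n + 1) (k + 2) i = 0 := by
      have step : ∀ i ∈ Finset.range (k + 2),
          (Q1 n (k + 2) (i + 1) * (((n : ℤ) + 1 - i) ^ 2 * (((k : ℤ) + 2) - i) ^ 3)
          - Q1 n (k + 2) i * ((i : ℤ) ^ 3 * ((n : ℤ) + 1 - (((k : ℤ) + 2) - i)) ^ 2))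
          * TT (n + 1) (k + 2) i = g (i + 1) - g i := by
        intro i hi
        have hi' : i < k + 2 := Finset.mem_range.1 hi
        have h := shiftT (n + 1) (k + 2) i hi'
        push_cast at h
        simp only [hg]
        push_cast
        linear_combination (-(Q1 n (k + 2) (i + 1))) * h
      rw [Finset.sum_range_succ, Finset.sum_congr rfl step, Finset.sum_range_sub]
      have h0 : g 0 = 0 := by simp [hg]
      rw [h0]
      simp only [hg]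
      push_cast
      ring
    have hc : ∀ i ∈ Finset.range (k + 3),
        (Q1 n (k + 2) (i + 1) * (((n : ℤ) + 1 - i) ^ 2 * (((k : ℤ) + 2) - i) ^ 3)
          - Q1 n (k + 2) i * ((i : ℤ) ^ 3 * ((n : ℤ) + 1 - (((k : ℤ) + 2) - i)) ^ 2))
          * TT (n + 1) (k + 2) i
        = (((n : ℤ) + 1) ^ 4 * (((k : ℤ) + 2) * ((k : ℤ) + 1))
            * (-((k : ℤ) + 2) ^ 2 + 6 * ((k : ℤ) + 2) * (n + 1) - 6 * ((n : ℤ) + 1) ^ 2))
              * TT (n + 1) (k + 2) i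
          + (((k : ℤ) + 2) * ((k : ℤ) + 1) * (6 + 6 * ((k : ℤ) + 2) + 12 * n
              + 3 * ((k : ℤ) + 2) ^ 2 + 6 * ((k : ℤ) + 2) * n + 6 * (n : ℤ) ^ 2))
              * ((((n : ℤ) + 1 - i) ^ 2 * ((n : ℤ) + 1 - (((k : ℤ) + 2) - i)) ^ 2)
                * TT (n + 1) (k + 2) i)
          + (((k : ℤ) + 1) * (2 - 7 * ((k : ℤ) + 1) + 16 * n - 9 * ((k : ℤ) + 1) ^ 2
              + 8 * ((k : ℤ) + 1) * n + 8 * (n : ℤ) ^ 2))
              * ((i : ℤ) ^ 3 * ((n : ℤ) + 1 - (((k : ℤ) + 2) - i)) ^ 2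
                * TT (n + 1) (k + 2) i)
          + (-4 + 2 * (k : ℤ) - 16 * n + 6 * (k : ℤ) ^ 2 - 16 * (k : ℤ) * n)
              * ((i : ℤ) ^ 3 * (((k : ℤ) + 2) - i) ^ 3 * TT (n + 1) (k + 2) i) := by
      intro i _
      have h := cert1 n (k + 2) i ((k : ℤ) + 2 - i) rfl
      linear_combination (-TT (n + 1) (k + 2) i) * h
    rw [Finset.sum_congr rfl hc, Finset.sum_add_distrib, Finset.sum_add_distrib,
      Finset.sum_add_distrib, ← Finset.mul_sum, ← Finset.mul_sum, ← Finset.mul_sum,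
      ← Finset.mul_sum, ← hs0, ← hs1, ← hs2, ← hsN] at htel
    have hne : ((k : ℤ) + 2) * ((k : ℤ) + 1) * ((n : ℤ) + 1) ^ 4 ≠ 0 := by positivity
    apply mul_left_cancel₀ hne
    have c1 : ¬ (k + 1 + 1 < 1) := by omega
    have c2 : ¬ (k + 1 + 1 < 2) := by omega
    have e1 : k + 1 + 1 - 1 = k + 1 := by omega
    have e2 : k + 1 + 1 - 2 = k := by omega
    rw [if_neg c1, if_neg c2, e1, e2]
    push_cast
    linear_combination htel

end Pool.Agent.H90.Pi
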