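/-
Module R3 of the project on the two series for 1/pi (MP_e49510_nt): the second recurrence for the
coefficients of the polynomials S_n^(2), by a telescoping certificate.
-/
import Pool.Agent.H22.Pi.Defs
import Pool.Agent.H90.Pi.R1

set_option autoImplicit false

namespace Pool.Agent.H90.Pi

open Pool.Agent.H22.Pi

/-- The summand of the second certificate, `N = n + 1`. -/
def BB (n m i : ℕ) : ℤ :=
  ((n + 2).choose i : ℤ) ^ 2 * ((n + 1).choose (m - i) : ℤ) ^ 2 * (m.choose i : ℤ)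

lemma ch1' (n i : ℕ) :
    ((n : ℤ) + 2 - i) * ((n + 2).choose i : ℤ) = ((n : ℤ) + 2) * ((n + 1).choose i : ℤ) := by
  have h := ch1 (n + 1) i
  push_cast at h
  linarith

lemma ch2' (n i : ℕ) :
    ((i : ℤ) + 1) * ((n + 2).choose (i + 1) : ℤ) = ((n : ℤ) + 2) * ((n + 1).choose i : ℤ) := by
  have h := ch2 (n + 1) i
  push_cast at h
  linarith

/-- `(N+1)^2 s_N(i,j) = (N+1-i)^2 B` -/
lemma b0 (n m i : ℕ) :
    ((n : ℤ) + 2) ^ 2 * TT (n + 1) m i = ((n : ℤ) + 2 - i) ^ 2 * BB n m i := by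
  unfold TT BB
  have h1 := ch1' n i
  have e : ((n : ℤ) + 2 - i) ^ 2
      * (((n + 2).choose i : ℤ) ^ 2 * ((n + 1).choose (m - i) : ℤ) ^ 2 * (m.choose i : ℤ))
      = (((n : ℤ) + 2 - i) * ((n + 2).choose i : ℤ)) ^ 2
        * ((n + 1).choose (m - i) : ℤ) ^ 2 * (m.choose i : ℤ) := by
    ring
  rw [e, h1]
  ring

/-- `(N+1)^2 m s_N(i-1,j) = i^3 B` -/
lemma b1 (n m i : ℕ) :
    ((n : ℤ) + 2) ^ 2 * ((m : ℤ) + 1) * TT (n + 1) m i
      = ((i : ℤ) + 1) ^ 3 * BB n (m + 1) (i + 1) := by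
  unfold TT BB
  have e0 : m + 1 - (i + 1) = m - i := by omega
  rw [e0]
  have h1 := ch2' n i
  have h3 := ch2 m i
  have e : ((i : ℤ) + 1) ^ 3
      * (((n + 2).choose (i + 1) : ℤ) ^ 2 * ((n + 1).choose (m - i) : ℤ) ^ 2
        * ((m + 1).choose (i + 1) : ℤ))
      = (((i : ℤ) + 1) * ((n + 2).choose (i + 1) : ℤ)) ^ 2
        * ((n + 1).choose (m - i) : ℤ) ^ 2
        * (((i : ℤ) + 1) * ((m + 1).choose (i + 1) : ℤ)) := by
    ring
  rw [e, h1, h3]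
  ring

lemma b2 (n m i : ℕ) (hi : i ≤ m) :
    ((n : ℤ) + 2) ^ 2 * ((n : ℤ) + 1) ^ 4 * TT n m i
      = (((n : ℤ) + 2 - i) * ((n : ℤ) + 1 - i) * ((n : ℤ) + 1 - (m - i))) ^ 2 * BB n m i := by
  have h1 := s0 n m i hi
  have h2 := b0 n m i
  linear_combination ((n : ℤ) + 2) ^ 2 * h1
    + ((n : ℤ) + 1 - i) ^ 2 * ((n : ℤ) + 1 - (m - i)) ^ 2 * h2

lemma b3 (n m i : ℕ) (hi : i ≤ m) :
    ((n : ℤ) + 2) ^ 2 * ((n : ℤ) + 1) ^ 4 * ((m : ℤ) + 1) * TT n m i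
      = (((i : ℤ) + 1) * ((n : ℤ) + 1 - i) * ((n : ℤ) + 1 - (m - i))) ^ 2 * ((i : ℤ) + 1)
        * BB n (m + 1) (i + 1) := by
  have h1 := s1 n m i hi
  have h2 := b0 n (m + 1) (i + 1)
  push_cast at h2
  linear_combination ((n : ℤ) + 2) ^ 2 * h1
    + ((i : ℤ) + 1) ^ 3 * ((n : ℤ) + 1 - (m - i)) ^ 2 * h2

lemma b4 (n m i : ℕ) (hi : i ≤ m) :
    ((n : ℤ) + 2) ^ 2 * ((n : ℤ) + 1) ^ 4 * (((m : ℤ) + 2) * ((m : ℤ) + 1)) * TT n m i
      = (((i : ℤ) + 1) * ((n : ℤ) + 1 - i) * ((m : ℤ) - i + 1)) ^ 2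
        * (((i : ℤ) + 1) * ((m : ℤ) - i + 1)) * BB n (m + 2) (i + 1) := by
  have h1 := s2 n m i hi
  have h2 := b0 n (m + 2) (i + 1)
  push_cast at h2
  linear_combination ((n : ℤ) + 2) ^ 2 * h1
    + ((i : ℤ) + 1) ^ 3 * ((m : ℤ) - i + 1) ^ 3 * h2

lemma b5 (n m i : ℕ) (hi : i ≤ m) :
    ((n : ℤ) + 2) ^ 2 * ((n : ℤ) + 1) ^ 4 * (((m : ℤ) + 3) * ((m : ℤ) + 2) * ((m : ℤ) + 1))
        * TT n m i
      = (((i : ℤ) + 2) * ((i : ℤ) + 1) * ((m : ℤ) - i + 1)) ^ 3 * BB n (m + 3) (i + 2) := by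
  have h1 := s2 n m i hi
  have h2 := b1 n (m + 2) (i + 1)
  push_cast at h2
  have e0 : m + 2 + 1 = m + 3 := rfl
  have e1 : i + 1 + 1 = i + 2 := rfl
  rw [e0, e1] at h2
  linear_combination ((n : ℤ) + 2) ^ 2 * ((m : ℤ) + 3) * h1
    + ((i : ℤ) + 1) ^ 3 * ((m : ℤ) - i + 1) ^ 3 * h2

lemma shiftB (n m i : ℕ) (hi : i < m) :
    ((i : ℤ) + 1) ^ 3 * ((n : ℤ) + 1 - (m - i) + 1) ^ 2 * BB n m (i + 1)
      = ((n : ℤ) + 2 - i) ^ 2 * ((m : ℤ) - i) ^ 3 * BB n m i := by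
  obtain ⟨j, rfl⟩ : ∃ j, m = i + 1 + j := ⟨m - (i + 1), by omega⟩
  unfold BB
  have e0 : i + 1 + j - (i + 1) = j := by omega
  have e1 : i + 1 + j - i = j + 1 := by omega
  rw [e0, e1]
  have a1 : ((i : ℤ) + 1) * ((n + 2).choose (i + 1) : ℤ)
      = ((n : ℤ) + 2 - i) * ((n + 2).choose i : ℤ) := by
    rcases le_or_gt i (n + 2) with h | h
    · have h1 := Nat.choose_succ_right_eq (n + 2) i
      have h2 : (((n + 2).choose (i + 1) * (i + 1) : ℕ) : ℤ)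
          = (((n + 2).choose i * (n + 2 - i) : ℕ) : ℤ) := by
        rw [h1]
      rw [Nat.cast_mul, Nat.cast_mul, Nat.cast_sub h] at h2
      push_cast at h2
      linarith
    · rw [Nat.choose_eq_zero_of_lt h, Nat.choose_eq_zero_of_lt (by omega)]
      simp
  have a2 : ((j : ℤ) + 1) * ((n + 1).choose (j + 1) : ℤ)
      = ((n : ℤ) + 1 - j) * ((n + 1).choose j : ℤ) := by
    rcases le_or_gt j (n + 1) with h | h
    · have h1 := Nat.choose_succ_right_eq (n + 1) j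
      have h2 : (((n + 1).choose (j + 1) * (j + 1) : ℕ) : ℤ)
          = (((n + 1).choose j * (n + 1 - j) : ℕ) : ℤ) := by
        rw [h1]
      rw [Nat.cast_mul, Nat.cast_mul, Nat.cast_sub h] at h2
      push_cast at h2
      linarith
    · rw [Nat.choose_eq_zero_of_lt h, Nat.choose_eq_zero_of_lt (by omega)]
      simp
  have a3 : ((i : ℤ) + 1) * ((i + 1 + j).choose (i + 1) : ℤ)
      = ((j : ℤ) + 1) * ((i + 1 + j).choose i : ℤ) := by
    have h1 := Nat.choose_succ_right_eq (i + 1 + j) i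
    rw [e1] at h1
    have h2 : (((i + 1 + j).choose (i + 1) * (i + 1) : ℕ) : ℤ)
        = (((i + 1 + j).choose i * (j + 1) : ℕ) : ℤ) := by
      rw [h1]
    push_cast at h2
    linarith
  push_cast
  have e : ((i : ℤ) + 1) ^ 3 * ((n : ℤ) + 1 - ((i : ℤ) + 1 + j - i) + 1) ^ 2
      * (((n + 2).choose (i + 1) : ℤ) ^ 2 * ((n + 1).choose j : ℤ) ^ 2
        * ((i + 1 + j).choose (i + 1) : ℤ))
      = (((i : ℤ) + 1) * ((n + 2).choose (i + 1) : ℤ)) ^ 2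
        * (((n : ℤ) + 1 - j) * ((n + 1).choose j : ℤ)) ^ 2
        * (((i : ℤ) + 1) * ((i + 1 + j).choose (i + 1) : ℤ)) := by
    ring
  rw [e, a1, ← a2, a3]
  ring

/-- the polynomial of the certificate -/
def Q3 (n m i : ℤ) : ℤ :=
  (-90 + 203 * m - 187 * m ^ 2 + 94 * m ^ 3 - 20 * m ^ 4 - 144 * n + 320 * n * m
    - 268 * n * m ^ 2 + 112 * n * m ^ 3 - 20 * n * m ^ 4 - 52 * n ^ 2 + 128 * n ^ 2 * m
    - 111 * n ^ 2 * m ^ 2 + 40 * n ^ 2 * m ^ 3 - 5 * n ^ 2 * m ^ 4 + 8 * n ^ 3 * m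
    - 12 * n ^ 3 * m ^ 2 + 4 * n ^ 3 * m ^ 3)
  + (220 - 430 * m + 300 * m ^ 2 - 110 * m ^ 3 + 20 * m ^ 4 + 328 * n - 600 * n * m
    + 346 * n * m ^ 2 - 84 * n * m ^ 3 + 10 * n * m ^ 4 + 104 * n ^ 2 - 182 * n ^ 2 * m
    + 91 * n ^ 2 * m ^ 2 - 13 * n ^ 2 * m ^ 3) * i
  + (-172 + 304 * m - 165 * m ^ 2 + 38 * m ^ 3 - 5 * m ^ 4 - 224 * n + 364 * n * m
    - 154 * n * m ^ 2 + 14 * n * m ^ 3 - 52 * n ^ 2 + 78 * n ^ 2 * m
    - 26 * n ^ 2 * m ^ 2) * i ^ 2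
  + (44 - 72 * m + 31 * m ^ 2 - 3 * m ^ 3 + 40 * n - 60 * n * m + 20 * n * m ^ 2) * i ^ 3
  + (-2 + 3 * m - m ^ 2) * i ^ 4

lemma cert3 (n m i j : ℤ) (hj : j = m - i) :
    (-7 * m ^ 2 + 6 * m * (n + 1)) * (n + 1) ^ 4 * (m * (m - 1) * (m - 2))
        * (n + 2 - i) ^ 2
    + (9 * (m - 1) ^ 2 - 30 * (m - 1) * (n + 1) + 26 * (n + 1) ^ 2) * (n + 1) ^ 4
        * ((m - 1) * (m - 2)) * i ^ 3
    + (-6 * m - 5 * m ^ 2 - 6 * m * n) * (m * (m - 1) * (m - 2))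
        * ((n + 2 - i) * (n + 1 - i) * (n + 1 - j)) ^ 2
    + (-24 - 5 * (m - 1) - 60 * n + 14 * (m - 1) ^ 2 - 30 * (m - 1) * n - 26 * n ^ 2)
        * ((m - 1) * (m - 2)) * ((i * (n + 2 - i) * (n + 1 - j)) ^ 2 * i)
    + (22 + 15 * (m - 2) + 40 * n - 7 * (m - 2) ^ 2 + 40 * (m - 2) * n)
        * (m - 2) * ((i * (n + 2 - i) * j) ^ 2 * (i * j))
    + (-4 - 6 * (m - 3) - 2 * (m - 3) ^ 2) * (i * (i - 1) * j) ^ 3
    = Q3 n m (i + 1) * ((n + 2 - i) ^ 2 * j ^ 3) - Q3 n m i * (i ^ 3 * (n + 1 - j) ^ 2) := by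
  subst hj
  unfold Q3
  ring

lemma cc_zero (N : ℕ) : (cc N 0 : ℤ) = 1 := by simp [cc]

lemma cc_one (N : ℕ) : (cc N 1 : ℤ) = 2 * (N : ℤ) ^ 2 := by
  simp [cc, Finset.sum_range_succ]
  ring

lemma cc_two (N : ℕ) : 2 * (cc N 2 : ℤ) = (N : ℤ) ^ 2 * ((N : ℤ) - 1) ^ 2 + 4 * (N : ℤ) ^ 4 := by
  have h : 2 * (N.choose 2 : ℤ) = (N : ℤ) * ((N : ℤ) - 1) := by
    have h1 := Nat.choose_succ_right_eq N 1
    rcases Nat.eq_zero_or_pos N with h0 | h0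
    · subst h0
      simp
    · have h2 : ((N.choose (1 + 1) * (1 + 1) : ℕ) : ℤ) = ((N.choose 1 * (N - 1) : ℕ) : ℤ) := by
        rw [h1]
      rw [Nat.cast_mul, Nat.cast_mul, Nat.cast_sub h0, Nat.choose_one_right] at h2
      push_cast at h2
      linarith
  have e : (cc N 2 : ℤ) = 2 * (N.choose 2 : ℤ) ^ 2 + 2 * (N : ℤ) ^ 4 := by
    simp [cc, Finset.sum_range_succ]
    ring
  rw [e]
  linear_combination (2 * (N.choose 2 : ℤ) + (N : ℤ) * ((N : ℤ) - 1)) * h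

theorem r3 : Rec3Stmt := by
  intro n m
  rcases m with _ | _ | _ | k
  · simp
  · have e2 : cc n (0 + 1 - 1) = 1 := by simp [cc]
    have e3 : cc (n + 1) (0 + 1 - 1) = 1 := by simp [cc]
    rw [e2, e3, zero_add, cc_one, cc_one]
    simp
    ring
  · have h1 := cc_two n
    have h2 := cc_two (n + 1)
    have h3 := cc_one n
    have h4 := cc_one (n + 1)
    have h5 := cc_zero n
    have e2 : 0 + 1 + 1 - 1 = 1 := by omega
    have e3 : 0 + 1 + 1 - 2 = 0 := by omega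
    have c1 : ¬ (0 + 1 + 1 < 1) := by omega
    have c2 : ¬ (0 + 1 + 1 < 2) := by omega
    have c3 : 0 + 1 + 1 < 3 := by omega
    rw [if_neg c1, if_neg c1, if_neg c2, if_pos c3, e2, e3, h3, h4, h5]
    push_cast at h1 h2 ⊢
    have hh1 : (cc n (0 + 1 + 1) : ℤ) = (cc n 2 : ℤ) := rfl
    have hh2 : (cc (n + 1) (0 + 1 + 1) : ℤ) = (cc (n + 1) 2 : ℤ) := rfl
    rw [hh1, hh2]
    apply mul_left_cancel₀ (two_ne_zero : (2 : ℤ) ≠ 0)
    linear_combination (-28 + 12 * ((n : ℤ) + 1)) * h2 + (-12 - 20 - 12 * (n : ℤ)) * h1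
  · -- main case
    have hA : ((n : ℤ) + 2) ^ 2 * (cc (n + 1) (k + 3) : ℤ)
        = ∑ i ∈ Finset.range (k + 4), ((n : ℤ) + 2 - i) ^ 2 * BB n (k + 3) i := by
      rw [cc_eq, Finset.mul_sum]
      exact Finset.sum_congr rfl fun i _ => b0 n (k + 3) i
    have hB : ((n : ℤ) + 2) ^ 2 * ((k : ℤ) + 3) * (cc (n + 1) (k + 2) : ℤ)
        = ∑ i ∈ Finset.range (k + 4), (i : ℤ) ^ 3 * BB n (k + 3) i := by
      rw [Finset.sum_range_succ', cc_eq, Finset.mul_sum]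
      simp only [Nat.cast_zero, ne_eq, OfNat.ofNat_ne_zero, not_false_eq_true, zero_pow,
        zero_mul, add_zero]
      refine Finset.sum_congr rfl fun i _ => ?_
      have h := b1 n (k + 2) i
      push_cast at h ⊢
      rw [show (k : ℤ) + 3 = k + 2 + 1 by ring, h]
    have hC : ((n : ℤ) + 2) ^ 2 * ((n : ℤ) + 1) ^ 4 * (cc n (k + 3) : ℤ)
        = ∑ i ∈ Finset.range (k + 4), (((n : ℤ) + 2 - i) * ((n : ℤ) + 1 - i)
            * ((n : ℤ) + 1 - (((k : ℤ) + 3) - i))) ^ 2 * BB n (k + 3) i := by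
      rw [cc_eq, Finset.mul_sum]
      refine Finset.sum_congr rfl fun i hi => ?_
      have hi' : i ≤ k + 3 := by
        have := Finset.mem_range.1 hi
        omega
      have h := b2 n (k + 3) i hi'
      rw [h]
      push_cast
      ring
    have hD : ((n : ℤ) + 2) ^ 2 * ((n : ℤ) + 1) ^ 4 * ((k : ℤ) + 3) * (cc n (k + 2) : ℤ)
        = ∑ i ∈ Finset.range (k + 4), ((((i : ℤ)) * ((n : ℤ) + 2 - i)
            * ((n : ℤ) + 1 - (((k : ℤ) + 3) - i))) ^ 2 * (i : ℤ)) * BB n (k + 3) i := by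
      rw [Finset.sum_range_succ', cc_eq, Finset.mul_sum]
      simp only [Nat.cast_zero, ne_eq, OfNat.ofNat_ne_zero, not_false_eq_true, zero_pow,
        zero_mul, mul_zero, add_zero]
      refine Finset.sum_congr rfl fun i hi => ?_
      have hi' : i ≤ k + 2 := by
        have := Finset.mem_range.1 hi
        omega
      have h := b3 n (k + 2) i hi'
      push_cast at h ⊢
      rw [show (k : ℤ) + 3 = k + 2 + 1 by ring, h]
      ring
    have hE : ((n : ℤ) + 2) ^ 2 * ((n : ℤ) + 1) ^ 4 * (((k : ℤ) + 3) * ((k : ℤ) + 2))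
          * (cc n (k + 1) : ℤ)
        = ∑ i ∈ Finset.range (k + 4), (((i : ℤ) * ((n : ℤ) + 2 - i)
            * (((k : ℤ) + 3) - i)) ^ 2 * ((i : ℤ) * (((k : ℤ) + 3) - i))) * BB n (k + 3) i := by
      rw [Finset.sum_range_succ, Finset.sum_range_succ', cc_eq, Finset.mul_sum]
      simp only [Nat.cast_zero, ne_eq, OfNat.ofNat_ne_zero, not_false_eq_true, zero_pow,
        zero_mul, mul_zero, add_zero]
      have hlast : ((((k + 3 : ℕ) : ℤ) * ((n : ℤ) + 2 - ((k + 3 : ℕ) : ℤ))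
            * (((k : ℤ) + 3) - ((k + 3 : ℕ) : ℤ))) ^ 2 * (((k + 3 : ℕ) : ℤ)
            * (((k : ℤ) + 3) - ((k + 3 : ℕ) : ℤ)))) * BB n (k + 3) (k + 3) = 0 := by
        push_cast
        ring
      rw [hlast, add_zero]
      refine Finset.sum_congr rfl fun i hi => ?_
      have hi' : i ≤ k + 1 := by
        have := Finset.mem_range.1 hi
        omega
      have h := b4 n (k + 1) i hi'
      push_cast at h ⊢
      rw [show (k : ℤ) + 3 = k + 1 + 2 by ring, show (k : ℤ) + 2 = k + 1 + 1 by ring, h]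
      ring
    have hF : ((n : ℤ) + 2) ^ 2 * ((n : ℤ) + 1) ^ 4 * (((k : ℤ) + 3) * ((k : ℤ) + 2)
          * ((k : ℤ) + 1)) * (cc n k : ℤ)
        = ∑ i ∈ Finset.range (k + 4), ((i : ℤ) * ((i : ℤ) - 1)
            * (((k : ℤ) + 3) - i)) ^ 3 * BB n (k + 3) i := by
      rw [Finset.sum_range_succ, Finset.sum_range_succ', Finset.sum_range_succ', cc_eq,
        Finset.mul_sum]
      have hlast : (((k + 3 : ℕ) : ℤ) * (((k + 3 : ℕ) : ℤ) - 1)
            * (((k : ℤ) + 3) - ((k + 3 : ℕ) : ℤ))) ^ 3 * BB n (k + 3) (k + 3) = 0 := by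
        push_cast
        ring
      have h0 : ((((0 : ℕ)) : ℤ) * (((0 : ℕ) : ℤ) - 1)
            * (((k : ℤ) + 3) - ((0 : ℕ) : ℤ))) ^ 3 * BB n (k + 3) 0 = 0 := by
        push_cast
        ring
      have h1 : ((((0 + 1 : ℕ)) : ℤ) * (((0 + 1 : ℕ) : ℤ) - 1)
            * (((k : ℤ) + 3) - ((0 + 1 : ℕ) : ℤ))) ^ 3 * BB n (k + 3) (0 + 1) = 0 := by
        push_cast
        ring
      rw [hlast, h0, h1, add_zero, add_zero, add_zero]
      refine Finset.sum_congr rfl fun i hi => ?_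
      have hi' : i ≤ k := by
        have := Finset.mem_range.1 hi
        omega
      have h := b5 n k i hi'
      rw [show i + 1 + 1 = i + 2 from rfl, h]
      push_cast
      ring
    -- the telescoping sum
    set g : ℕ → ℤ := fun i => Q3 n (k + 3) i * ((i : ℤ) ^ 3
      * ((n : ℤ) + 1 - (((k : ℤ) + 3) - i)) ^ 2) * BB n (k + 3) i with hg
    have htel : ∑ i ∈ Finset.range (k + 4),
        (Q3 n (k + 3) (i + 1) * (((n : ℤ) + 2 - i) ^ 2 * (((k : ℤ) + 3) - i) ^ 3)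
          - Q3 n (k + 3) i * ((i : ℤ) ^ 3 * ((n : ℤ) + 1 - (((k : ℤ) + 3) - i)) ^ 2))
          * BB n (k + 3) i = 0 := by
      have step : ∀ i ∈ Finset.range (k + 3),
          (Q3 n (k + 3) (i + 1) * (((n : ℤ) + 2 - i) ^ 2 * (((k : ℤ) + 3) - i) ^ 3)
          - Q3 n (k + 3) i * ((i : ℤ) ^ 3 * ((n : ℤ) + 1 - (((k : ℤ) + 3) - i)) ^ 2))
          * BB n (k + 3) i = g (i + 1) - g i := by
        intro i hi
        have hi' : i < k + 3 := Finset.mem_range.1 hi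
        have h := shiftB n (k + 3) i hi'
        push_cast at h
        simp only [hg]
        push_cast
        linear_combination (-(Q3 n (k + 3) (i + 1))) * h
      rw [Finset.sum_range_succ, Finset.sum_congr rfl step, Finset.sum_range_sub]
      have h0 : g 0 = 0 := by simp [hg]
      rw [h0]
      simp only [hg]
      push_cast
      ring
    have hc : ∀ i ∈ Finset.range (k + 4),
        (Q3 n (k + 3) (i + 1) * (((n : ℤ) + 2 - i) ^ 2 * (((k : ℤ) + 3) - i) ^ 3)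
          - Q3 n (k + 3) i * ((i : ℤ) ^ 3 * ((n : ℤ) + 1 - (((k : ℤ) + 3) - i)) ^ 2))
          * BB n (k + 3) i
        = ((-7 * ((k : ℤ) + 3) ^ 2 + 6 * ((k : ℤ) + 3) * (n + 1)) * ((n : ℤ) + 1) ^ 4
              * (((k : ℤ) + 3) * ((k : ℤ) + 2) * ((k : ℤ) + 1)))
              * (((n : ℤ) + 2 - i) ^ 2 * BB n (k + 3) i)
          + ((9 * ((k : ℤ) + 2) ^ 2 - 30 * ((k : ℤ) + 2) * (n + 1) + 26 * ((n : ℤ) + 1) ^ 2)
              * ((n : ℤ) + 1) ^ 4 * (((k : ℤ) + 2) * ((k : ℤ) + 1)))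
              * ((i : ℤ) ^ 3 * BB n (k + 3) i)
          + ((-6 * ((k : ℤ) + 3) - 5 * ((k : ℤ) + 3) ^ 2 - 6 * ((k : ℤ) + 3) * n)
              * (((k : ℤ) + 3) * ((k : ℤ) + 2) * ((k : ℤ) + 1)))
              * ((((n : ℤ) + 2 - i) * ((n : ℤ) + 1 - i)
            * ((n : ℤ) + 1 - (((k : ℤ) + 3) - i))) ^ 2 * BB n (k + 3) i)
          + ((-24 - 5 * ((k : ℤ) + 2) - 60 * n + 14 * ((k : ℤ) + 2) ^ 2
              - 30 * ((k : ℤ) + 2) * n - 26 * (n : ℤ) ^ 2)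
              * (((k : ℤ) + 2) * ((k : ℤ) + 1)))
              * (((((i : ℤ)) * ((n : ℤ) + 2 - i)
            * ((n : ℤ) + 1 - (((k : ℤ) + 3) - i))) ^ 2 * (i : ℤ)) * BB n (k + 3) i)
          + ((22 + 15 * ((k : ℤ) + 1) + 40 * n - 7 * ((k : ℤ) + 1) ^ 2 + 40 * ((k : ℤ) + 1) * n)
              * ((k : ℤ) + 1))
              * ((((i : ℤ) * ((n : ℤ) + 2 - i)
            * (((k : ℤ) + 3) - i)) ^ 2 * ((i : ℤ) * (((k : ℤ) + 3) - i))) * BB n (k + 3) i)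
          + (-4 - 6 * (k : ℤ) - 2 * (k : ℤ) ^ 2)
              * (((i : ℤ) * ((i : ℤ) - 1)
            * (((k : ℤ) + 3) - i)) ^ 3 * BB n (k + 3) i) := by
      intro i _
      have h := cert3 n (k + 3) i ((k : ℤ) + 3 - i) rfl
      linear_combination (-BB n (k + 3) i) * h
    rw [Finset.sum_congr rfl hc, Finset.sum_add_distrib, Finset.sum_add_distrib,
      Finset.sum_add_distrib, Finset.sum_add_distrib, Finset.sum_add_distrib,
      ← Finset.mul_sum, ← Finset.mul_sum, ← Finset.mul_sum,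
      ← Finset.mul_sum, ← Finset.mul_sum, ← Finset.mul_sum,
      ← hA, ← hB, ← hC, ← hD, ← hE, ← hF] at htel
    have hne : ((n : ℤ) + 2) ^ 2 * ((n : ℤ) + 1) ^ 4 * (((k : ℤ) + 3) * ((k : ℤ) + 2)
          * ((k : ℤ) + 1)) ≠ 0 := by positivity
    apply mul_left_cancel₀ hne
    have c1 : ¬ (k + 1 + 1 + 1 < 1) := by omega
    have c2 : ¬ (k + 1 + 1 + 1 < 2) := by omega
    have c3 : ¬ (k + 1 + 1 + 1 < 3) := by omega
    have e1 : k + 1 + 1 + 1 - 1 = k + 2 := by omega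
    have e2 : k + 1 + 1 + 1 - 2 = k + 1 := by omega
    have e3 : k + 1 + 1 + 1 - 3 = k := by omega
    rw [if_neg c1, if_neg c1, if_neg c2, if_neg c3, e1, e2, e3]
    push_cast
    linear_combination htel

end Pool.Agent.H90.Pi
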